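import Pool.Agent.Helper55.AFT.T1
import Pool.Agent.Helper30.AFT.T2
import Pool.Agent.Helper44.AFT.T3
import Pool.Agent.Helper7.AFT.T4
import Pool.Agent.Helper37.AFT.T5
import Pool.Agent.Helper8.TPrime

/-!
No Weil classes: if an eigenspace of `J` meets `F^0` in a line, the Grothendieck classes of degree
four which are `K`-linear vanish.
-/

namespace Pool.Agent.Helper7.AFT

open Module Pool.Agent.GPC Pool.Agent.Helper7 Pool.Agent.Helper39.AF

/-! ### the determinant symbol -/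

/-- the determinant symbol -/
noncomputable def t7D (i j k l : Fin 4) : ℂ :=
  (Pi.basisFun ℂ (Fin 4)).det ![Pi.single i 1, Pi.single j 1, Pi.single k 1, Pi.single l 1]

lemma t7D_ne {i j k l : Fin 4} (h : t7D i j k l ≠ 0) :
    i ≠ j ∧ i ≠ k ∧ i ≠ l ∧ j ≠ k ∧ j ≠ l ∧ k ≠ l := by
  refine ⟨?_, ?_, ?_, ?_, ?_, ?_⟩
  · rintro rfl
    exact h (AlternatingMap.map_eq_zero_of_eq _ _ (i := 0) (j := 1) rfl (by decide))
  · rintro rfl
    exact h (AlternatingMap.map_eq_zero_of_eq _ _ (i := 0) (j := 2) rfl (by decide))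
  · rintro rfl
    exact h (AlternatingMap.map_eq_zero_of_eq _ _ (i := 0) (j := 3) rfl (by decide))
  · rintro rfl
    exact h (AlternatingMap.map_eq_zero_of_eq _ _ (i := 1) (j := 2) rfl (by decide))
  · rintro rfl
    exact h (AlternatingMap.map_eq_zero_of_eq _ _ (i := 1) (j := 3) rfl (by decide))
  · rintro rfl
    exact h (AlternatingMap.map_eq_zero_of_eq _ _ (i := 2) (j := 3) rfl (by decide))

lemma t7D_val : t7D 0 1 2 3 = 1 ∧ t7D 1 0 2 3 = -1 ∧ t7D 0 1 3 2 = -1 ∧ t7D 1 0 3 2 = 1 := by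
  unfold t7D
  refine ⟨?_, ?_, ?_, ?_⟩ <;>
  · rw [Pi.basisFun_det_apply]
    simp [Matrix.det_succ_row_zero, Fin.sum_univ_succ, Matrix.submatrix, Fin.succAbove]

/-- the pairing of two matrices -/
noncomputable def t7S (M N : Fin 4 → Fin 4 → ℂ) : ℂ :=
  ∑ i, ∑ j, ∑ k, ∑ l, M i j * N k l * t7D i j k l

lemma t7S_fil_f {M N : Fin 4 → Fin 4 → ℂ} (hM : ∀ j, M 0 j = 0) (hM' : ∀ j, M j 0 = 0)
    (hN : ∀ j, N 0 j = 0) (hN' : ∀ j, N j 0 = 0) : t7S M N = 0 := by
  unfold t7S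
  refine Finset.sum_eq_zero fun i _ => Finset.sum_eq_zero fun j _ => Finset.sum_eq_zero fun k _ =>
    Finset.sum_eq_zero fun l _ => ?_
  by_cases h : t7D i j k l = 0
  · rw [h, mul_zero]
  · have h1 := t7D_ne h
    have h2 : i = 0 ∨ j = 0 ∨ k = 0 ∨ l = 0 := by
      revert h1; clear h; revert i j k l; decide
    rcases h2 with rfl | rfl | rfl | rfl
    · rw [hM, zero_mul, zero_mul]
    · rw [hM', zero_mul, zero_mul]
    · rw [hN, mul_zero, zero_mul]
    · rw [hN', mul_zero, zero_mul]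

lemma t7S_fil_t {M N : Fin 4 → Fin 4 → ℂ} (hM : ∀ i j, i ≠ 0 → j ≠ 0 → M i j = 0)
    (hN : ∀ i j, i ≠ 0 → j ≠ 0 → N i j = 0) : t7S M N = 0 := by
  unfold t7S
  refine Finset.sum_eq_zero fun i _ => Finset.sum_eq_zero fun j _ => Finset.sum_eq_zero fun k _ =>
    Finset.sum_eq_zero fun l _ => ?_
  by_cases h : t7D i j k l = 0
  · rw [h, mul_zero]
  · have h1 := t7D_ne h
    by_cases h2 : i ≠ 0 ∧ j ≠ 0
    · rw [hM i j h2.1 h2.2, zero_mul, zero_mul]
    · have h3 : k ≠ 0 ∧ l ≠ 0 := by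
        revert h1 h2; clear h; revert i j k l; decide
      rw [hN k l h3.1 h3.2, mul_zero, zero_mul]

/-- the test matrices -/
def t7E (a b : Fin 4) (i j : Fin 4) : ℂ :=
  if i = a ∧ j = b then 1 else if i = b ∧ j = a then -1 else 0

lemma t7E_alt {a b : Fin 4} (hab : a ≠ b) (i j : Fin 4) : t7E a b i j = - t7E a b j i := by
  unfold t7E
  by_cases h1 : i = a ∧ j = b
  · rw [if_pos h1, if_neg (by rintro ⟨h2, h3⟩; exact hab (by rw [← h1.1, h3])), if_pos ⟨h1.2, h1.1⟩,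
      neg_neg]
  · rw [if_neg h1]
    by_cases h2 : i = b ∧ j = a
    · rw [if_pos h2, if_pos ⟨h2.2, h2.1⟩]
    · rw [if_neg h2, if_neg (fun h => h2 ⟨h.2, h.1⟩), if_neg (fun h => h1 ⟨h.2, h.1⟩), neg_zero]

lemma t7S_E : t7S (t7E 0 1) (t7E 2 3) ≠ 0 := by
  have h : t7S (t7E 0 1) (t7E 2 3) = 4 := by
    obtain ⟨h1, h2, h3, h4⟩ := t7D_val
    unfold t7S t7E
    simp only [Fin.sum_univ_four]
    simp
    rw [h1, h2, h3, h4]
    norm_num
  rw [h]
  norm_num

lemma t7S_smul (a b : ℂ) (M N : Fin 4 → Fin 4 → ℂ) :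
    t7S (fun i j => a * M i j) (fun i j => b * N i j) = a * b * t7S M N := by
  unfold t7S
  simp only [Finset.mul_sum]
  refine Finset.sum_congr rfl fun i _ => Finset.sum_congr rfl fun j _ =>
    Finset.sum_congr rfl fun k _ => Finset.sum_congr rfl fun l _ => ?_
  ring

lemma t7S_zero_left (N : Fin 4 → Fin 4 → ℂ) : t7S (fun _ _ => 0) N = 0 := by
  unfold t7S
  simp

/-! ### the form `w` on the frame -/

section form

variable {X : AbVar} {J : X.H1 → X.H1} {z : ℂ}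

/-- the eigenvalue -/
def t7s (z : ℂ) (ε : Bool) : ℂ := if ε then -z else z

lemma t7s_not (z : ℂ) (ε : Bool) : t7s z (!ε) = - t7s z ε := by
  cases ε <;> simp [t7s]

lemma t7s_ne {z : ℂ} (hz : z ≠ 0) {ε ε' : Bool} (h : ε ≠ ε') : t7s z ε ≠ t7s z ε' := by
  have h1 : z ≠ -z := fun h => hz (self_eq_neg.mp h)
  cases ε <;> cases ε' <;> simp_all [t7s]
  exact fun h2 => h1 h2.symm

lemma t7s_ne_zero {z : ℂ} (hz : z ≠ 0) (ε : Bool) : t7s z ε ≠ 0 := by
  cases ε <;> simp [t7s, hz]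

lemma t7_J (F : Frame X J z) (a : Fin 4 × Bool) : J (F.b a) = t7s z a.2 • F.b a := by
  obtain ⟨i, ε⟩ := a
  cases ε
  · simpa [t7s] using F.Jf i
  · simpa [t7s] using F.Jt i

lemma t7_mixed (w : X.Class (2 * 2))
    (hwJ : ∀ v r s, w (Function.update v r (J (v r))) = w (Function.update v s (J (v s))))
    (v : Fin (2 * 2) → X.H1) (r s : Fin (2 * 2)) {cr cs : ℂ} (hr : J (v r) = cr • v r)
    (hs : J (v s) = cs • v s) (h : cr ≠ cs) : w v = 0 := by
  have h1 := hwJ v r s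
  rw [hr, hs, w.map_update_smul, w.map_update_smul, Function.update_eq_self,
    Function.update_eq_self, smul_eq_mul, smul_eq_mul] at h1
  have h2 : (cr - cs) * w v = 0 := by rw [sub_mul, h1, sub_self]
  exact (mul_eq_zero.mp h2).resolve_left (sub_ne_zero.mpr h)

lemma t7_four_mixed (hz : z ≠ 0) (F : Frame X J z) (w : X.Class (2 * 2))
    (hwJ : ∀ v r s, w (Function.update v r (J (v r))) = w (Function.update v s (J (v s))))
    (a b c e : Fin 4 × Bool) (h : ¬ (a.2 = b.2 ∧ a.2 = c.2 ∧ a.2 = e.2)) :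
    four w (F.b a) (F.b b) (F.b c) (F.b e) = 0 := by
  by_cases h1 : a.2 = b.2
  · by_cases h2 : a.2 = c.2
    · have h3 : a.2 ≠ e.2 := fun h3 => h ⟨h1, h2, h3⟩
      exact t7_mixed w hwJ _ 0 3 (t7_J F a) (t7_J F e) (t7s_ne hz h3)
    · exact t7_mixed w hwJ _ 0 2 (t7_J F a) (t7_J F c) (t7s_ne hz h2)
  · exact t7_mixed w hwJ _ 0 1 (t7_J F a) (t7_J F b) (t7s_ne hz h1)

/-- the value of the form on the vectors of the frame -/
noncomputable def t7P (F : Frame X J z) (w : X.Class (2 * 2)) (ε : Bool) : ℂ :=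
  four w (F.b (0, ε)) (F.b (1, ε)) (F.b (2, ε)) (F.b (3, ε))

lemma t7_four_same (F : Frame X J z) (w : X.Class (2 * 2)) (ε : Bool) (i j k l : Fin 4) :
    four w (F.b (i, ε)) (F.b (j, ε)) (F.b (k, ε)) (F.b (l, ε)) = t7P F w ε * t7D i j k l := by
  let L : (Fin 4 → ℂ) →ₗ[ℂ] X.H1 := Fintype.linearCombination ℂ (fun i => F.b (i, ε))
  have hL : ∀ i, L (Pi.single i 1) = F.b (i, ε) := fun i => by
    show Fintype.linearCombination ℂ (fun i => F.b (i, ε)) (Pi.single i 1) = _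
    rw [Fintype.linearCombination_apply_single, one_smul]
  let f : (Fin 4 → ℂ) [⋀^Fin 4]→ₗ[ℂ] ℂ := w.compLinearMap L
  have h1 : f = f (Pi.basisFun ℂ (Fin 4)) • (Pi.basisFun ℂ (Fin 4)).det :=
    AlternatingMap.eq_smul_basis_det _ f
  have h2 : f ![Pi.single i 1, Pi.single j 1, Pi.single k 1, Pi.single l 1] =
      four w (F.b (i, ε)) (F.b (j, ε)) (F.b (k, ε)) (F.b (l, ε)) := by
    show w (fun r => L (![Pi.single i 1, Pi.single j 1, Pi.single k 1, Pi.single l 1] r)) =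
      w ![F.b (i, ε), F.b (j, ε), F.b (k, ε), F.b (l, ε)]
    refine congrArg w (funext fun r => ?_)
    fin_cases r <;> exact hL _
  have h3 : f (Pi.basisFun ℂ (Fin 4)) = t7P F w ε := by
    show w (fun r => L (Pi.basisFun ℂ (Fin 4) r)) =
      w ![F.b (0, ε), F.b (1, ε), F.b (2, ε), F.b (3, ε)]
    refine congrArg w (funext fun r => ?_)
    rw [Pi.basisFun_apply]
    fin_cases r <;> exact hL _
  rw [← h2, h1, ← h3]
  rfl

lemma t7_four_eq (hz : z ≠ 0) (F : Frame X J z) (w : X.Class (2 * 2))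
    (hwJ : ∀ v r s, w (Function.update v r (J (v r))) = w (Function.update v s (J (v s))))
    (a b c e : Fin 4 × Bool) : four w (F.b a) (F.b b) (F.b c) (F.b e) =
      if a.2 = b.2 ∧ a.2 = c.2 ∧ a.2 = e.2 then t7P F w a.2 * t7D a.1 b.1 c.1 e.1 else 0 := by
  by_cases h : a.2 = b.2 ∧ a.2 = c.2 ∧ a.2 = e.2
  · rw [if_pos h, ← t7_four_same]
    obtain ⟨i, ε⟩ := a
    obtain ⟨j, ε2⟩ := b
    obtain ⟨k, ε3⟩ := c
    obtain ⟨l, ε4⟩ := e
    obtain ⟨h1, h2, h3⟩ := h
    simp only at h1 h2 h3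
    subst h1 h2 h3
    rfl
  · rw [if_neg h, t7_four_mixed hz F w hwJ _ _ _ _ h]

/-- the form vanishes if its two values vanish -/
lemma t7_eq_zero (hz : z ≠ 0) (F : Frame X J z) (w : X.Class (2 * 2))
    (hwJ : ∀ v r s, w (Function.update v r (J (v r))) = w (Function.update v s (J (v s))))
    (hP : ∀ ε, t7P F w ε = 0) : w = 0 := by
  refine Basis.ext_alternating F.b fun v _ => ?_
  rw [AlternatingMap.zero_apply]
  have h1 := t7_four_eq hz F w hwJ (v 0) (v 1) (v 2) (v 3)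
  rw [hP, zero_mul, ite_self] at h1
  rw [← h1, eq_four]

/-- the dual frame -/
noncomputable def t7d (F : Frame X J z) (a : Fin 4 × Bool) : X.H1 :=
  if a.2 then - F.b (a.1, false) else F.b (a.1, true)

lemma t7d_dual (F : Frame X J z) : IsDual X F.b (t7d F) := by
  rintro ⟨i, ε⟩ ⟨j, ε'⟩
  cases ε <;> cases ε' <;> simp only [t7d, Bool.false_eq_true, if_false, if_true]
  · rw [F.ft]
    by_cases h : i = j
    · rw [if_pos h, if_pos (by rw [h])]
    · rw [if_neg h, if_neg (fun h' => h (congrArg Prod.fst h'))]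
  · rw [pol_eq, map_neg, ← pol_eq, F.ff, neg_zero, if_neg (by simp)]
  · rw [F.tt, if_neg (by simp)]
  · rw [pol_eq, map_neg, polForm_antisymm, neg_neg, ← pol_eq, F.ft]
    by_cases h : i = j
    · rw [if_pos h.symm, if_pos (by rw [h])]
    · rw [if_neg (Ne.symm h), if_neg (fun h' => h (congrArg Prod.fst h'))]

lemma t7_four_dual (hz : z ≠ 0) (F : Frame X J z) (w : X.Class (2 * 2))
    (hwJ : ∀ v r s, w (Function.update v r (J (v r))) = w (Function.update v s (J (v s))))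
    (a b c e : Fin 4 × Bool) : four w (t7d F a) (t7d F b) (t7d F c) (t7d F e) =
      if a.2 = b.2 ∧ a.2 = c.2 ∧ a.2 = e.2 then t7P F w (!a.2) * t7D a.1 b.1 c.1 e.1 else 0 := by
  have hs : ∀ a : Fin 4 × Bool, t7d F a = (if a.2 then (-1 : ℂ) else 1) • F.b (a.1, !a.2) := by
    rintro ⟨i, ε⟩
    cases ε <;> simp [t7d]
  have h4 := four_lin w
  rw [hs a, hs b, hs c, hs e, h4.smul1, h4.smul2, h4.smul3, h4.smul4,
    t7_four_eq hz F w hwJ (a.1, !a.2) (b.1, !b.2) (c.1, !c.2) (e.1, !e.2)]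
  have hiff : ((!a.2) = !b.2 ∧ (!a.2) = !c.2 ∧ (!a.2) = !e.2) ↔
      (a.2 = b.2 ∧ a.2 = c.2 ∧ a.2 = e.2) := by
    cases a.2 <;> cases b.2 <;> cases c.2 <;> cases e.2 <;> simp
  by_cases h : a.2 = b.2 ∧ a.2 = c.2 ∧ a.2 = e.2
  · rw [if_pos (hiff.mpr h), if_pos h, ← h.1, ← h.2.1, ← h.2.2]
    cases a.2 <;> simp
  · rw [if_neg (fun h' => h (hiff.mp h')), if_neg h]
    ring

end form

/-! ### the contraction on the frame -/

section contraction

variable {X Y E : AbVar} {d : ℚ} {J : X.H1 → X.H1} {JY : Y.H1 → Y.H1} {JE : E.H1 → E.H1}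
  {T : Ten X Y E} (hJ : X.IsWeilStructure d J) (hT : X.IsExtSquareL d J Y E JY JE T) {z : ℂ}
  (hz : z ^ 2 = -(d : ℂ)) (F : Frame X J z) (G : FrameE E JE z)

lemma mat_add (ε : Bool) (w w' : Y.H1) (i j : Fin 4) :
    mat T F G ε (w + w') i j = mat T F G ε w i j + mat T F G ε w' i j := by
  unfold mat
  rw [map_add, LinearMap.add_apply]

lemma mat_smul (ε : Bool) (c : ℂ) (w : Y.H1) (i j : Fin 4) :
    mat T F G ε (c • w) i j = c * mat T F G ε w i j := by
  unfold mat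
  rw [map_smul, LinearMap.smul_apply, smul_eq_mul]

include hJ hT hz in
lemma t7_T (a b : Fin 4 × Bool) (w : Y.H1) (l : E.H1) : T (F.b a) (F.b b) w l =
    if a.2 = b.2 then G.g.repr l a.2 * mat T F G a.2 w a.1 b.1 else 0 := by
  classical
  rw [T_eq hJ hT hz F G, Finset.sum_eq_single a.2 (fun ε _ hε => ?_) (by simp)]
  · rw [Finset.sum_eq_single a.1 (fun i _ hi => ?_) (by simp)]
    · by_cases h : a.2 = b.2
      · rw [if_pos h, Finset.sum_eq_single b.1 (fun j _ hj => ?_) (by simp)]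
        · rw [Basis.repr_self, Basis.repr_self]
          have h1 : ((a.1, a.2) : Fin 4 × Bool) = a := rfl
          have h2 : ((b.1, a.2) : Fin 4 × Bool) = b := by rw [h]
          rw [h1, h2, Finsupp.single_eq_same, Finsupp.single_eq_same, one_mul, one_mul]
        · rw [F.b.repr_self b, Finsupp.single_eq_of_ne (fun h' => hj (congrArg Prod.fst h')),
            mul_zero, zero_mul, zero_mul]
      · rw [if_neg h]
        refine Finset.sum_eq_zero fun j _ => ?_
        rw [F.b.repr_self b, Finsupp.single_eq_of_ne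
          (show ((j, a.2) : Fin 4 × Bool) ≠ b from fun h' => h (Prod.ext_iff.mp h').2),
          mul_zero, zero_mul, zero_mul]
    · refine Finset.sum_eq_zero fun j _ => ?_
      rw [F.b.repr_self a, Finsupp.single_eq_of_ne (fun h' => hi (congrArg Prod.fst h')),
            zero_mul, zero_mul, zero_mul]
  · refine Finset.sum_eq_zero fun i _ => Finset.sum_eq_zero fun j _ => ?_
    rw [F.b.repr_self a, Finsupp.single_eq_of_ne (fun h' => hε (congrArg Prod.snd h')),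
            zero_mul, zero_mul, zero_mul]

include hJ hT hz in
lemma t7_Gam (hz0 : z ≠ 0) (w : X.Class (2 * 2))
    (hwJ : ∀ v r s, w (Function.update v r (J (v r))) = w (Function.update v s (J (v s))))
    (w1 : Y.H1) (l : E.H1) (w2 : Y.H1) (l' : E.H1) :
    Gam T (four w) F.b (t7d F) w1 l w2 l' =
      ∑ ε : Bool, G.g.repr l ε * G.g.repr l' ε * t7P F w (!ε) *
        t7S (mat T F G ε w1) (mat T F G ε w2) := by
  have h1 : ∀ a b c e : Fin 4 × Bool, T (F.b a) (F.b b) w1 l * T (F.b c) (F.b e) w2 l' *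
      four w (t7d F a) (t7d F b) (t7d F c) (t7d F e) =
      if a.2 = b.2 ∧ a.2 = c.2 ∧ a.2 = e.2 then G.g.repr l a.2 * G.g.repr l' a.2 *
        t7P F w (!a.2) * (mat T F G a.2 w1 a.1 b.1 * mat T F G a.2 w2 c.1 e.1 *
          t7D a.1 b.1 c.1 e.1) else 0 := by
    intro a b c e
    rw [t7_four_dual hz0 F w hwJ]
    by_cases h : a.2 = b.2 ∧ a.2 = c.2 ∧ a.2 = e.2
    · rw [if_pos h, if_pos h, t7_T hJ hT hz F G a b, t7_T hJ hT hz F G c e, if_pos h.1,
        if_pos (h.2.1.symm.trans h.2.2), ← h.2.1]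
      ring
    · rw [if_neg h, if_neg h, mul_zero]
  unfold Gam
  simp only [h1]
  simp only [Fintype.sum_prod_type_right, Fintype.sum_bool]
  simp only [Bool.true_eq_false, Bool.false_eq_true, and_true, and_false,
    if_true, if_false, Finset.sum_const_zero, add_zero, zero_add]
  unfold t7S
  simp only [Finset.mul_sum]

lemma t7_Gam_add1 (β : X.H1 → X.H1 → X.H1 → X.H1 → ℂ) {ι : Type} [Fintype ι] (e e' : ι → X.H1)
    (w w1 : Y.H1) (l : E.H1) (w' : Y.H1) (l' : E.H1) :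
    Gam T β e e' (w + w1) l w' l' = Gam T β e e' w l w' l' + Gam T β e e' w1 l w' l' := by
  unfold Gam
  simp only [map_add, LinearMap.add_apply, add_mul, Finset.sum_add_distrib]

lemma t7_Gam_smul1 (β : X.H1 → X.H1 → X.H1 → X.H1 → ℂ) {ι : Type} [Fintype ι] (e e' : ι → X.H1)
    (c : ℂ) (w : Y.H1) (l : E.H1) (w' : Y.H1) (l' : E.H1) :
    Gam T β e e' (c • w) l w' l' = c * Gam T β e e' w l w' l' := by
  unfold Gam
  simp only [map_smul, LinearMap.smul_apply, smul_eq_mul, mul_assoc, Finset.mul_sum]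

lemma t7_Gam_add2 (β : X.H1 → X.H1 → X.H1 → X.H1 → ℂ) {ι : Type} [Fintype ι] (e e' : ι → X.H1)
    (w : Y.H1) (l : E.H1) (w' w1 : Y.H1) (l' : E.H1) :
    Gam T β e e' w l (w' + w1) l' = Gam T β e e' w l w' l' + Gam T β e e' w l w1 l' := by
  unfold Gam
  simp only [map_add, LinearMap.add_apply, mul_add, add_mul, Finset.sum_add_distrib]

lemma t7_Gam_smul2 (β : X.H1 → X.H1 → X.H1 → X.H1 → ℂ) {ι : Type} [Fintype ι] (e e' : ι → X.H1)
    (c : ℂ) (w : Y.H1) (l : E.H1) (w' : Y.H1) (l' : E.H1) :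
    Gam T β e e' w l (c • w') l' = c * Gam T β e e' w l w' l' := by
  unfold Gam
  simp only [map_smul, LinearMap.smul_apply, smul_eq_mul, Finset.mul_sum]
  refine Finset.sum_congr rfl fun i _ => Finset.sum_congr rfl fun j _ =>
    Finset.sum_congr rfl fun k _ => Finset.sum_congr rfl fun l _ => ?_
  ring

/-- the contraction, divided by `2πi`, as a bilinear form -/
noncomputable def t7G (F : Frame X J z) (w : X.Class (2 * 2)) (T : Ten X Y E) (l0 : E.H1) :
    Y.H1 →ₗ[ℂ] Y.H1 →ₗ[ℂ] ℂ :=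
  LinearMap.mk₂ ℂ (fun w1 w2 => (2 * Real.pi * Complex.I)⁻¹ *
      Gam T (four w) F.b (t7d F) w1 l0 w2 l0)
    (fun u u' v => by rw [t7_Gam_add1, mul_add])
    (fun c u v => by rw [t7_Gam_smul1, smul_eq_mul]; ring)
    (fun u v v' => by rw [t7_Gam_add2, mul_add])
    (fun c u v => by rw [t7_Gam_smul2, smul_eq_mul]; ring)

lemma t7G_apply (w : X.Class (2 * 2)) (l0 : E.H1) (w1 w2 : Y.H1) :
    t7G F w T l0 w1 w2 = (2 * Real.pi * Complex.I)⁻¹ *
      Gam T (four w) F.b (t7d F) w1 l0 w2 l0 := rfl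

/-- the pairing of the matrices as a bilinear form -/
noncomputable def t7B (T : Ten X Y E) (F : Frame X J z) (G : FrameE E JE z) (ε : Bool) :
    Y.H1 →ₗ[ℂ] Y.H1 →ₗ[ℂ] ℂ :=
  LinearMap.mk₂ ℂ (fun w1 w2 => t7S (mat T F G ε w1) (mat T F G ε w2))
    (fun u u' v => by
      unfold t7S
      simp only [mat_add, add_mul, Finset.sum_add_distrib])
    (fun c u v => by
      unfold t7S
      simp only [mat_smul, smul_eq_mul, mul_assoc, Finset.mul_sum])
    (fun u v v' => by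
      unfold t7S
      simp only [mat_add, mul_add, add_mul, Finset.sum_add_distrib])
    (fun c u v => by
      unfold t7S
      simp only [mat_smul, smul_eq_mul, Finset.mul_sum]
      refine Finset.sum_congr rfl fun i _ => Finset.sum_congr rfl fun j _ =>
        Finset.sum_congr rfl fun k _ => Finset.sum_congr rfl fun l _ => ?_
      ring)

lemma t7B_apply (ε : Bool) (w1 w2 : Y.H1) :
    t7B T F G ε w1 w2 = t7S (mat T F G ε w1) (mat T F G ε w2) := rfl

include hJ hT hz in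
lemma t7B_ne (ε : Bool) : ∃ j k, t7B T F G ε (Pi.single j 1) (Pi.single k 1) ≠ 0 := by
  by_contra hcon
  push Not at hcon
  have h0 : t7B T F G ε = 0 := by
    refine LinearMap.ext_basis (Pi.basisFun ℂ _) (Pi.basisFun ℂ _) fun i j => ?_
    rw [Pi.basisFun_apply, Pi.basisFun_apply, hcon]
    rfl
  obtain ⟨u, hu⟩ := mat_surj hJ hT hz F G (fun _ => t7E 0 1)
    (fun _ i j => t7E_alt (by decide) i j)
  obtain ⟨v, hv⟩ := mat_surj hJ hT hz F G (fun _ => t7E 2 3)
    (fun _ i j => t7E_alt (by decide) i j)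
  have h1 : t7B T F G ε u v = t7S (t7E 0 1) (t7E 2 3) := by
    rw [t7B_apply]
    have e1 : mat T F G ε u = t7E 0 1 := funext fun i => funext fun j => hu ε i j
    have e2 : mat T F G ε v = t7E 2 3 := funext fun i => funext fun j => hv ε i j
    rw [e1, e2]
  rw [h0] at h1
  exact t7S_E h1.symm

include hT in
lemma mat_JY (ε : Bool) (w : Y.H1) (i j : Fin 4) :
    mat T F G ε (JY w) i j = t7s z ε * mat T F G ε w i j := by
  unfold mat
  rw [← (hT.lin _ _ _ _).2.1, t7_J F (i, ε), map_smul, LinearMap.smul_apply, LinearMap.smul_apply,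
    LinearMap.smul_apply, smul_eq_mul]

include hT in
lemma mat_proj (ε ε' : Bool) (w : Y.H1) :
    mat T F G ε' (JY w + t7s z ε • w) =
      fun i j => (t7s z ε' + t7s z ε) * mat T F G ε' w i j := by
  funext i j
  rw [mat_add, mat_smul, mat_JY hT F G]
  ring

end contraction

/-! ### periods -/

lemma t7_exists_betti (E : AbVar) (hE : E.g = 1) : ∃ l, E.IsBetti l ∧ l ≠ 0 := by
  obtain ⟨ι, _, _, e, e', he, hb, _⟩ := exists_betti_dual E
  have hne : Nonempty ι := by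
    by_contra h
    rw [not_nonempty_iff] at h
    have h1 := Module.finrank_eq_card_basis e
    rw [Fintype.card_eq_zero, Module.finrank_fintype_fun_eq_card, Fintype.card_sum,
      Fintype.card_fin, hE] at h1
    omega
  obtain ⟨i⟩ := hne
  exact ⟨e i, hb i, e.ne_zero i⟩

lemma t7_contra (E : AbVar) {l : E.H1} (hl : E.IsBetti l) (hl0 : l ≠ 0) {c : ℂ} {u : E.H1}
    (hu : E.IsDeRham u) (h : l = c • u) : False := by
  obtain ⟨N, hN, m, hm, hNl⟩ := hl
  have hNC : (N : ℂ) ≠ 0 := Nat.cast_ne_zero.mpr hN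
  refine E.periods_not_proportional m hm ?_ ⟨N * c, u, hu, ?_⟩
  · rintro rfl
    apply hl0
    have h1 : E.period 0 = 0 := map_zero (periodHom E)
    rw [h1, smul_eq_zero] at hNl
    exact hNl.resolve_left hNC
  · rw [← hNl, h, smul_smul]

lemma t7_deRham_add (E : AbVar) {u v : E.H1} (hu : E.IsDeRham u) (hv : E.IsDeRham v) {c : ℂ}
    (hc : IsAlgebraic ℚ c) : E.IsDeRham (u + c • v) := fun j => (hu j).add (hc.mul (hv j))

section main

variable {X Y E : AbVar} {d : ℚ} {J : X.H1 → X.H1} {JY : Y.H1 → Y.H1} {JE : E.H1 → E.H1}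
  {T : Ten X Y E} (hJ : X.IsWeilStructure d J) (hT : X.IsExtSquareL d J Y E JY JE T) {z : ℂ}
  (hz : z ^ 2 = -(d : ℂ)) (F : Frame X J z) (G : FrameE E JE z)

lemma four_betti {w : X.Class (2 * 2)} (hw : X.IsGrothendieckClass 2 w) (a b c e : X.H1)
    (ha : X.IsBetti a) (hb : X.IsBetti b) (hc : X.IsBetti c) (he : X.IsBetti e) :
    ∃ q : ℚ, four w a b c e = (2 * Real.pi * Complex.I) ^ 2 * q := by
  refine hw.2 ![a, b, c, e] fun r => ?_
  fin_cases r
  exacts [ha, hb, hc, he]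

lemma four_deRham {w : X.Class (2 * 2)} (hw : X.IsGrothendieckClass 2 w) (a b c e : X.H1)
    (ha : X.IsDeRham a) (hb : X.IsDeRham b) (hc : X.IsDeRham c) (he : X.IsDeRham e) :
    IsAlgebraic ℚ (four w a b c e) := by
  refine hw.1 ![a, b, c, e] fun r => ?_
  fin_cases r
  exacts [ha, hb, hc, he]

include hJ hT hz G in
lemma t7G_fil (hz0 : z ≠ 0) (w : X.Class (2 * 2))
    (hwJ : ∀ v r s, w (Function.update v r (J (v r))) = w (Function.update v s (J (v s))))
    (l0 : E.H1) (u v : Y.H1) (hu : Y.IsFil u) (hv : Y.IsFil v) : t7G F w T l0 u v = 0 := by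
  rw [t7G_apply, t7_Gam hJ hT hz F G hz0 w hwJ, Finset.sum_eq_zero (fun ε _ => ?_), mul_zero]
  obtain ⟨hu1, hu2⟩ := (fil_iff hJ hT hz F G u).mp hu
  obtain ⟨hv1, hv2⟩ := (fil_iff hJ hT hz F G v).mp hv
  cases ε
  · rw [t7S_fil_f hu1 (fun j => by rw [mat_alt hJ hT hz F G, hu1, neg_zero]) hv1
      (fun j => by rw [mat_alt hJ hT hz F G, hv1, neg_zero]), mul_zero]
  · rw [t7S_fil_t hu2 hv2, mul_zero]

include hJ hT hz G in
lemma t7_P_zero (hz0 : z ≠ 0) (w : X.Class (2 * 2)) (hw : X.IsGrothendieckClass 2 w)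
    (hwJ : ∀ v r s, w (Function.update v r (J (v r))) = w (Function.update v s (J (v s))))
    (ε : Bool) : t7P F w (!ε) = 0 := by
  by_contra hP
  have hϖ : (2 * Real.pi * Complex.I : ℂ) ≠ 0 := Complex.two_pi_I_ne_zero
  have hzalg : IsAlgebraic ℚ z := by
    refine IsAlgebraic.of_pow (n := 2) two_pos ?_
    rw [hz]
    exact (isAlgebraic_algebraMap (A := ℂ) (d : ℚ)).neg
  have hsalg : ∀ ε, IsAlgebraic ℚ (t7s z ε) := by
    intro ε
    cases ε
    · exact hzalg
    · exact hzalg.neg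
  obtain ⟨l0, hl0, hl0n⟩ := t7_exists_betti E hT.dim.2
  have hlin := four_lin w
  -- the de Rham vectors of `Y`
  obtain ⟨j, k, hjk⟩ := t7B_ne hJ hT hz F G ε
  have hdR : ∀ j, Y.IsDeRham (Pi.single j 1) := by
    intro j i
    by_cases h : i = j
    · subst h
      rw [Pi.single_eq_same]
      exact isAlgebraic_one
    · rw [Pi.single_eq_of_ne h]
      exact isAlgebraic_zero
  obtain ⟨w1, hw1⟩ : ∃ w1, w1 = JY (Pi.single j 1) + t7s z ε • (Pi.single j 1 : Y.H1) := ⟨_, rfl⟩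
  obtain ⟨w2, hw2⟩ : ∃ w2, w2 = JY (Pi.single k 1) + t7s z ε • (Pi.single k 1 : Y.H1) := ⟨_, rfl⟩
  have hw1d : Y.IsDeRham w1 := by
    rw [hw1]
    exact t7_deRham_add Y (hT.endo.1.deRham _ (hdR j)) (hdR j) (hsalg ε)
  have hw2d : Y.IsDeRham w2 := by
    rw [hw2]
    exact t7_deRham_add Y (hT.endo.1.deRham _ (hdR k)) (hdR k) (hsalg ε)
  have hm1 : ∀ ε', mat T F G ε' w1 = fun i j' => (t7s z ε' + t7s z ε) *
      mat T F G ε' (Pi.single j 1) i j' := fun ε' => by rw [hw1, mat_proj hT F G]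
  have hm2 : ∀ ε', mat T F G ε' w2 = fun i j' => (t7s z ε' + t7s z ε) *
      mat T F G ε' (Pi.single k 1) i j' := fun ε' => by rw [hw2, mat_proj hT F G]
  obtain ⟨S, hS⟩ : ∃ S, S = t7S (mat T F G ε w1) (mat T F G ε w2) := ⟨_, rfl⟩
  have hS0 : S ≠ 0 := by
    rw [hS, hm1, hm2, t7S_smul]
    have h2 : t7s z ε + t7s z ε ≠ 0 := by
      rw [← two_mul]
      exact mul_ne_zero two_ne_zero (t7s_ne_zero hz0 ε)
    exact mul_ne_zero (mul_ne_zero h2 h2) hjk
  have hSn : t7S (mat T F G (!ε) w1) (mat T F G (!ε) w2) = 0 := by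
    rw [hm1 (!ε), t7s_not]
    have e1 : (fun i j' => (-t7s z ε + t7s z ε) * mat T F G (!ε) (Pi.single j 1) i j') =
        fun _ _ => (0 : ℂ) := by
      funext i j'
      ring
    rw [e1, t7S_zero_left]
  have hsum : ∀ f : Bool → ℂ, f (!ε) = 0 → ∑ ε', f ε' = f ε := by
    intro f hf
    cases ε
    · rw [Fintype.sum_bool]
      simpa using hf
    · rw [Fintype.sum_bool]
      simpa using hf
  have hGam : ∀ l l' : E.H1, Gam T (four w) F.b (t7d F) w1 l w2 l' =
      G.g.repr l ε * G.g.repr l' ε * t7P F w (!ε) * S := by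
    intro l l'
    rw [t7_Gam hJ hT hz F G hz0 w hwJ, hsum _ (by rw [hSn, mul_zero]), hS]
  -- de Rham
  have hA1 : IsAlgebraic ℚ (t7P F w (!ε) * S) := by
    have h1 := Gam_deRham T hlin hT.deRham (four_deRham hw) F.b (t7d F) (t7d_dual F) w1 (G.g ε) w2
      (G.g ε) hw1d (G.alg ε) hw2d (G.alg ε)
    rw [hGam, G.g.repr_self, Finsupp.single_eq_same, one_mul, one_mul] at h1
    exact h1
  have hPS : t7P F w (!ε) * S ≠ 0 := mul_ne_zero hP hS0
  -- Betti
  have hA2 : IsAlgebraic ℚ (t7G F w T l0 w1 w2) := by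
    refine bil_deRham Y (t7G F w T l0) (fun u v hu hv => ?_)
      (fun u v hu hv => t7G_fil hJ hT hz F G hz0 w hwJ l0 u v hu hv) w1 w2 hw1d hw2d
    obtain ⟨q, hq⟩ := Gam_betti T hlin hT.betti (four_betti hw) F.b (t7d F) (t7d_dual F) u l0 v l0
      hu hl0 hv hl0
    refine ⟨q, ?_⟩
    rw [t7G_apply, hq]
    generalize (2 * Real.pi * Complex.I : ℂ) = ϖ at hϖ ⊢
    rw [sq, mul_assoc, inv_mul_cancel_left₀ hϖ]
  have hx2 : IsAlgebraic ℚ ((2 * Real.pi * Complex.I)⁻¹ * (G.g.repr l0 ε) ^ 2) := by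
    have h1 : (2 * Real.pi * Complex.I)⁻¹ * (G.g.repr l0 ε) ^ 2 =
        t7G F w T l0 w1 w2 * (t7P F w (!ε) * S)⁻¹ := by
      rw [t7G_apply, hGam]
      field_simp
    rw [h1]
    exact hA2.mul hA1.inv
  -- Legendre relation
  have hJE : ∀ ε, JE (G.g ε) = t7s z ε • G.g ε := by
    intro ε
    cases ε
    · exact G.Jf
    · exact G.Jt
  have hl0e : l0 = G.g.repr l0 false • G.g false + G.g.repr l0 true • G.g true := by
    conv_lhs => rw [← G.g.sum_repr l0]
    rw [Fintype.sum_bool, add_comm]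
  have hJEl : JE l0 = (z * G.g.repr l0 false) • G.g false +
      (-z * G.g.repr l0 true) • G.g true := by
    have hlinE := hT.endo.2.linear
    conv_lhs => rw [hl0e]
    rw [hlinE.map_add, hlinE.map_smul, hlinE.map_smul, hJE, hJE, smul_smul, smul_smul,
      mul_comm (G.g.repr l0 false), mul_comm (G.g.repr l0 true)]
    rfl
  have hxx : IsAlgebraic ℚ ((2 * Real.pi * Complex.I)⁻¹ *
      (G.g.repr l0 false * G.g.repr l0 true)) := by
    obtain ⟨q, hq⟩ := polForm_rat E l0 (JE l0) ((isBetti_iff E _).mp hl0)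
      ((isBetti_iff E _).mp (hT.endo.2.betti _ hl0))
    have h0 : ∀ ε, E.polForm (G.g ε) (G.g ε) = 0 := by
      intro ε
      have h1 := polForm_antisymm E (G.g ε) (G.g ε)
      exact self_eq_neg.mp h1
    have hft : E.polForm (G.g false) (G.g true) = 1 := G.ft
    have htf : E.polForm (G.g true) (G.g false) = -1 := by
      rw [polForm_antisymm, hft]
    have h2 : E.polForm l0 (JE l0) = -(2 * z) * (G.g.repr l0 false * G.g.repr l0 true) := by
      rw [hJEl]
      generalize G.g.repr l0 false = xf at hl0e ⊢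
      generalize G.g.repr l0 true = xt at hl0e ⊢
      rw [hl0e]
      simp only [map_add, map_smul, LinearMap.add_apply, LinearMap.smul_apply, smul_eq_mul, h0,
        hft, htf]
      ring
    rw [h2] at hq
    have h3 : (2 * Real.pi * Complex.I)⁻¹ * (G.g.repr l0 false * G.g.repr l0 true) =
        (q : ℂ) * (-(2 * z))⁻¹ := by
      have h4 : -(2 * z) ≠ 0 := neg_ne_zero.mpr (mul_ne_zero two_ne_zero hz0)
      generalize (2 * Real.pi * Complex.I : ℂ) = ϖ at hϖ hq ⊢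
      have h5 : G.g.repr l0 false * G.g.repr l0 true = ϖ * q * (-(2 * z))⁻¹ := by
        rw [← hq, mul_comm (-(2 * z)), mul_assoc, mul_inv_cancel₀ h4, mul_one]
      rw [h5, mul_assoc, inv_mul_cancel_left₀ hϖ]
    rw [h3]
    exact (isAlgebraic_algebraMap (A := ℂ) (q : ℚ)).mul
      (((isAlgebraic_algebraMap (A := ℂ) (2 : ℚ)).mul hzalg).neg.inv)
  have hxx' : IsAlgebraic ℚ ((2 * Real.pi * Complex.I)⁻¹ *
      (G.g.repr l0 ε * G.g.repr l0 (!ε))) := by
    cases ε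
    · exact hxx
    · rw [mul_comm (G.g.repr l0 true)]
      exact hxx
  have hl0e' : l0 = G.g.repr l0 ε • G.g ε + G.g.repr l0 (!ε) • G.g (!ε) := by
    cases ε
    · exact hl0e
    · rw [add_comm]
      exact hl0e
  by_cases hx : G.g.repr l0 ε = 0
  · rw [hx, zero_smul, zero_add] at hl0e'
    exact t7_contra E hl0 hl0n (G.alg (!ε)) hl0e'
  · have hr : IsAlgebraic ℚ (G.g.repr l0 (!ε) / G.g.repr l0 ε) := by
      have h1 : G.g.repr l0 (!ε) / G.g.repr l0 ε = ((2 * Real.pi * Complex.I)⁻¹ *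
          (G.g.repr l0 ε * G.g.repr l0 (!ε))) *
          ((2 * Real.pi * Complex.I)⁻¹ * (G.g.repr l0 ε) ^ 2)⁻¹ := by
        field_simp
      rw [h1]
      exact hxx'.mul hx2.inv
    refine t7_contra E hl0 hl0n (t7_deRham_add E (G.alg ε) (G.alg (!ε)) hr)
      (c := G.g.repr l0 ε) ?_
    rw [smul_add, smul_smul, mul_div_cancel₀ _ hx]
    exact hl0e'

end main

/-! ### module T7 : no Weil classes -/

theorem no_weil (X : AbVar) (hX : X.g = 4) (d : ℚ) (J : X.H1 → X.H1) (hJ : X.IsWeilStructure d J)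
    (z : ℂ) (hz : z ^ 2 = -(d : ℂ)) (h1 : finrank ℂ (X.filEigen J z) = 1) (Y E : AbVar)
    (JY : Y.H1 → Y.H1) (JE : E.H1 → E.H1) (T : Ten X Y E)
    (hT : X.IsExtSquareL d J Y E JY JE T)
    (hz' : ∀ l, E.IsFil l → JE l = z • l) (w : X.Class (2 * 2)) (hw : X.IsGrothendieckClass 2 w)
    (hwJ : ∀ v r s, w (Function.update v r (J (v r))) = w (Function.update v s (J (v s)))) :
    w = 0 := by
  have hz0 : z ≠ 0 := by
    rintro rfl
    have h2 : (d : ℂ) ≠ 0 := by exact_mod_cast hJ.1.ne'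
    apply h2
    rw [← neg_eq_zero, ← hz]
    norm_num
  obtain ⟨F⟩ := exists_frame X hX d J hJ z hz h1
  obtain ⟨G⟩ := exists_frameE E hT.dim.2 d hJ.1 JE hT.endo.2 hT.sq z hz hz'
  refine t7_eq_zero hz0 F w hwJ fun ε => ?_
  have h2 := t7_P_zero hJ hT hz F G hz0 w hw hwJ (!ε)
  rwa [Bool.not_not] at h2

end Pool.Agent.Helper7.AFT
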